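import Pool.Agent.Helper54.SP.StmtsP

/-!
Modules `DSW`, `DMV`, `DP`, `OSP` of the `SPR_d` project.
-/

namespace Pool.Agent.Helper54.SP

theorem dsw_getD (s t : List ℕ) (a b i : ℕ) :
    (s ++ b :: a :: t).getD i 0 =
      (s ++ a :: b :: t).getD (if i = s.length then s.length + 1
        else if i = s.length + 1 then s.length else i) 0 := by
  induction s generalizing i with
  | nil =>
    rcases i with _ | _ | i
    · simp
    · simp
    · simp
  | cons c s ih =>
    rcases i with _ | i
    · simp
    · have := ih i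
      simp only [List.cons_append, List.getD_cons_succ, List.length_cons]
      rw [this]
      by_cases h1 : i = s.length
      · subst h1; simp
      · by_cases h2 : i = s.length + 1
        · subst h2; simp
        · rw [if_neg h1, if_neg h2, if_neg (by omega), if_neg (by omega)]
          simp

theorem st_DSW : ST_DSW := by
  intro k X s t a b hk
  have h1 : s.length + 1 < k := by simp at hk; omega
  have h0 : s.length < k := by omega
  have hp := Matrix.det_permute (Equiv.swap (⟨s.length, h0⟩ : Fin k) ⟨s.length+1, h1⟩)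
    (Matrix.of fun i j : Fin k => X ((s ++ a :: b :: t).getD i 0) j)
  rw [Equiv.Perm.sign_swap (by simp [Fin.ext_iff])] at hp
  have he : (Matrix.of fun i j : Fin k => X ((s ++ b :: a :: t).getD i 0) j) =
      (Matrix.of fun i j : Fin k => X ((s ++ a :: b :: t).getD i 0) j).submatrix
        (Equiv.swap (⟨s.length, h0⟩ : Fin k) ⟨s.length+1, h1⟩) id := by
    ext i j
    simp only [Matrix.of_apply, Matrix.submatrix_apply, id]
    rw [dsw_getD]
    congr 2
    by_cases e1 : (i : ℕ) = s.length
    · have : i = ⟨s.length, h0⟩ := Fin.ext e1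
      subst this
      simp
    · by_cases e2 : (i : ℕ) = s.length + 1
      · have : i = ⟨s.length + 1, h1⟩ := Fin.ext e2
        subst this
        simp
      · rw [if_neg e1, if_neg e2, Equiv.swap_apply_of_ne_of_ne]
        · intro h; apply e1; rw [h]
        · intro h; apply e2; rw [h]
  unfold dt
  rw [he, hp]
  simp

theorem st_DMV (h1 : ST_DSW) : ST_DMV := by
  intro k X s l t a
  induction l generalizing s with
  | nil => intro _; simp
  | cons b l ih =>
    intro hk
    have e1 : s ++ (b :: l ++ a :: t) = (s ++ [b]) ++ (l ++ a :: t) := by simp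
    have e2 : (s ++ [b]) ++ a :: (l ++ t) = s ++ b :: a :: (l ++ t) := by simp
    have e3 : s ++ a :: (b :: l ++ t) = s ++ a :: b :: (l ++ t) := by simp
    rw [e1, ih (s ++ [b]) (by simp at hk ⊢; omega), e2,
      h1 k X s (l ++ t) a b (by simp at hk ⊢; omega), e3]
    simp only [List.length_cons, pow_succ]
    ring

theorem st_DP (h1 : ST_DSW) : ST_DP := by
  intro l l' hp
  induction hp with
  | nil => exact ⟨1, Or.inl rfl, fun s t k X _ => by simp⟩
  | cons a p ih =>
    obtain ⟨ε, hε, hh⟩ := ih
    refine ⟨ε, hε, fun s t k X hk => ?_⟩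
    rename_i l₁ l₂
    have := hh (s ++ [a]) t k X (by simp at hk ⊢; omega)
    simpa using this
  | swap a b l =>
    refine ⟨-1, Or.inr rfl, fun s t k X hk => ?_⟩
    have := h1 k X s (l ++ t) b a (by simp at hk ⊢; omega)
    simpa using this
  | trans p1 p2 ih1 ih2 =>
    obtain ⟨ε, hε, hh⟩ := ih1
    obtain ⟨δ, hδ, hh2⟩ := ih2
    refine ⟨δ * ε, ?_, fun s t k X hk => ?_⟩
    · rcases hε with rfl | rfl <;> rcases hδ with rfl | rfl <;> simp
    · rw [hh2 s t k X (by rw [← p1.length_eq]; exact hk), hh s t k X hk]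
      ring

theorem st_OSP (h1 : ST_DP) : ST_OSP := by
  intro k X n f g hp hk hos x y hx hy hxg hyg
  obtain ⟨ε, hε, hh⟩ := h1 f g hp
  have a1 := hh [] [x] k X (by simp; omega)
  have a2 := hh [] [y] k X (by simp; omega)
  simp only [List.nil_append] at a1 a2
  have h0 := hos x y hx hy (fun h => hxg (hp.mem_iff.1 h)) (fun h => hyg (hp.mem_iff.1 h))
  rw [a1, a2]
  have : ε * ε = 1 := by rcases hε with rfl | rfl <;> norm_num
  have e : ε * dt k X (f ++ [x]) * (ε * dt k X (f ++ [y])) =
    (ε * ε) * (dt k X (f ++ [x]) * dt k X (f ++ [y])) := by ring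
  rw [e, this, one_mul]
  exact h0

end Pool.Agent.Helper54.SP
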