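import Pool.Agent.Helper54.SP.StmtsP

/-!
Modules `PF`, `PC`, `PJ`, `PI`, `PA`, `P3` of the `SPR_d` project.
-/

namespace Pool.Agent.Helper54.SP

open Finset

theorem pf_getD_lt (f : List ℕ) (i r : ℕ) (h : r < f.length) :
    (f ++ [i]).getD r 0 = f.getD r 0 := by
  simp [List.getD_eq_getElem?_getD, List.getElem?_append_left h]

theorem pf_getD_last (f : List ℕ) (i : ℕ) : (f ++ [i]).getD f.length 0 = i := by
  simp [List.getD_eq_getElem?_getD]

theorem pf_getD_last' (f : List ℕ) (d i : ℕ) (hf : f.length = d) : (f ++ [i]).getD d 0 = i := by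
  subst hf
  exact pf_getD_last f i

/-- cofactors of the last row -/
noncomputable def pf_C (d : ℕ) (p : ℕ → Fin d → ℝ) (f : List ℕ) (j : Fin (d + 1)) : ℝ :=
  (-1) ^ (d + (j : ℕ)) *
    Matrix.det (Matrix.of fun r c : Fin d => hom d p (f.getD r 0) (j.succAbove c))

theorem pf_exp (d : ℕ) (p : ℕ → Fin d → ℝ) (f : List ℕ) (hf : f.length = d) (i : ℕ) :
    dt (d + 1) (hom d p) (f ++ [i]) = ∑ j : Fin (d + 1), hom d p i j * pf_C d p f j := by
  unfold dt
  rw [Matrix.det_succ_row _ (Fin.last d)]
  refine Finset.sum_congr rfl fun j _ => ?_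
  have h1 : (Matrix.of fun i_1 j : Fin (d + 1) => hom d p ((f ++ [i]).getD i_1 0) j) (Fin.last d) j
      = hom d p i j := by
    rw [Matrix.of_apply, Fin.val_last, pf_getD_last' f d i hf]
  have h2 : (Matrix.of fun i_1 j : Fin (d + 1) => hom d p ((f ++ [i]).getD i_1 0) j).submatrix
      (Fin.last d).succAbove j.succAbove =
      Matrix.of fun r c : Fin d => hom d p (f.getD r 0) (j.succAbove c) := by
    ext r c
    simp only [Matrix.submatrix_apply, Matrix.of_apply, Fin.succAbove_last, Fin.val_castSucc]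
    rw [pf_getD_lt f i r (by rw [hf]; exact r.2)]
  rw [h1, h2, pf_C, Fin.val_last]
  ring

theorem st_PF : ST_PF := by
  intro d p f hf
  refine ⟨∑ j : Fin d, pf_C d p f j.castSucc • LinearMap.proj j, -pf_C d p f (Fin.last d),
    fun i => ?_⟩
  rw [pf_exp d p f hf i, Fin.sum_univ_castSucc]
  have h1 : hom d p i (Fin.last d : Fin (d+1)) = 1 := by
    unfold hom
    simp
  rw [h1]
  simp only [LinearMap.sum_apply, LinearMap.smul_apply, LinearMap.proj_apply, smul_eq_mul]
  have h2 : ∀ j : Fin d, hom d p i (j.castSucc : Fin (d+1)) = p i j := by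
    intro j
    unfold hom
    simp
  simp only [h2]
  rw [Finset.sum_congr rfl (fun j _ => mul_comm (p i j) _)]
  ring

theorem st_PC : ST_PC := by
  classical
  intro d n p L c hL
  apply Set.Subset.antisymm
  · intro x hx
    obtain ⟨hx1, hx2⟩ := hx
    have hs : (p '' {i | i < n}) = (((range n).image p : Finset (Fin d → ℝ)) : Set (Fin d → ℝ)) := by
      ext y; simp
    rw [hul, hs, Finset.mem_convexHull'] at hx1
    obtain ⟨w, hw0, hw1, hwx⟩ := hx1
    have hLx : ∑ y ∈ (range n).image p, w y * L y = c := by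
      rw [← hx2, ← hwx, map_sum]
      refine Finset.sum_congr rfl fun y _ => ?_
      simp
    have hz : ∑ y ∈ (range n).image p, w y * (c - L y) = 0 := by
      have : ∑ y ∈ (range n).image p, w y * (c - L y) =
        (∑ y ∈ (range n).image p, w y) * c - ∑ y ∈ (range n).image p, w y * L y := by
        rw [Finset.sum_mul, ← Finset.sum_sub_distrib]
        exact Finset.sum_congr rfl fun y _ => by ring
      rw [this, hw1, hLx]; ring
    have hle : ∀ y ∈ (range n).image p, L y ≤ c := by
      intro y hy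
      obtain ⟨i, hi, rfl⟩ := Finset.mem_image.1 hy
      exact hL i (Finset.mem_range.1 hi)
    have hterm := (Finset.sum_eq_zero_iff_of_nonneg (fun y hy =>
      mul_nonneg (hw0 y hy) (sub_nonneg.2 (hle y hy)))).1 hz
    have hset : (((range n).image p).filter (fun y => L y = c) : Set (Fin d → ℝ)) ⊆
        p '' {i | i < n ∧ L (p i) = c} := by
      intro y hy
      simp only [Finset.coe_filter, Set.mem_ofPred_eq, Finset.mem_image, Finset.mem_range] at hy
      obtain ⟨⟨i, hi, rfl⟩, h2⟩ := hy
      exact ⟨i, ⟨hi, h2⟩, rfl⟩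
    refine convexHull_mono hset ?_
    rw [Finset.mem_convexHull']
    have hzero : ∀ y ∈ (range n).image p, ¬ L y = c → w y = 0 := by
      intro y hy hne
      have := hterm y hy
      rcases mul_eq_zero.1 this with h | h
      · exact h
      · exact absurd (by linarith) hne
    refine ⟨w, fun y hy => hw0 y (Finset.mem_filter.1 hy).1, ?_, ?_⟩
    · rw [Finset.sum_filter, ← hw1]
      refine Finset.sum_congr rfl fun y hy => ?_
      by_cases h : L y = c
      · rw [if_pos h]
      · rw [if_neg h, hzero y hy h]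
    · rw [Finset.sum_filter, ← hwx]
      refine Finset.sum_congr rfl fun y hy => ?_
      by_cases h : L y = c
      · rw [if_pos h]
      · rw [if_neg h, hzero y hy h, zero_smul]
  · intro x hx
    refine ⟨?_, ?_⟩
    · refine convexHull_mono ?_ hx
      rintro y ⟨i, hi, rfl⟩
      exact ⟨i, hi.1, rfl⟩
    · have hc : Convex ℝ {x : Fin d → ℝ | L x = c} := convex_hyperplane L.isLinear c
      refine convexHull_min ?_ hc hx
      rintro y ⟨i, hi, rfl⟩
      exact hi.2

theorem pj_vecMul (d : ℕ) (p : ℕ → Fin d → ℝ) (l : List ℕ) (v : Fin (d + 1) → ℝ) :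
    Matrix.vecMul v (Matrix.of fun i j : Fin (d + 1) => hom d p (l.getD i 0) j) = 0 ↔
      (∑ r, v r = 0 ∧ ∑ r, v r • p (l.getD r 0) = 0) := by
  constructor
  · intro h
    constructor
    · have := congrFun h (Fin.last d)
      simp only [Matrix.vecMul, dotProduct, Matrix.of_apply, Pi.zero_apply] at this
      rw [← this]
      refine Finset.sum_congr rfl fun r _ => ?_
      simp [hom]
    · ext j
      have := congrFun h j.castSucc
      simp only [Matrix.vecMul, dotProduct, Matrix.of_apply, Pi.zero_apply] at this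
      rw [Finset.sum_apply, Pi.zero_apply, ← this]
      refine Finset.sum_congr rfl fun r _ => ?_
      simp [hom]
  · rintro ⟨h1, h2⟩
    ext j
    simp only [Matrix.vecMul, dotProduct, Matrix.of_apply, Pi.zero_apply]
    refine Fin.lastCases ?_ (fun j => ?_) j
    · rw [← h1]
      refine Finset.sum_congr rfl fun r _ => ?_
      simp [hom]
    · have := congrFun h2 j
      rw [Finset.sum_apply, Pi.zero_apply] at this
      rw [← this]
      refine Finset.sum_congr rfl fun r _ => ?_
      simp [hom]

theorem st_PJ : ST_PJ := by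
  classical
  intro d p l hl hnd hai h0
  have hlen : ∀ r : Fin (d + 1), (r : ℕ) < l.length := fun r => by rw [hl]; exact r.2
  have hmem : ∀ r : Fin (d + 1), l.getD r 0 ∈ l.toFinset := by
    intro r
    rw [List.mem_toFinset, List.getD_eq_getElem _ _ (hlen r)]
    exact List.getElem_mem _
  let e : Fin (d + 1) ↪ l.toFinset := ⟨fun r => ⟨l.getD r 0, hmem r⟩, by
    intro r s hrs
    have : l.getD r 0 = l.getD s 0 := congrArg Subtype.val hrs
    rw [List.getD_eq_getElem _ _ (hlen r), List.getD_eq_getElem _ _ (hlen s)] at this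
    exact Fin.ext ((List.Nodup.getElem_inj_iff hnd).1 this)⟩
  have h2 := hai.comp_embedding e
  obtain ⟨v, hv, hv0⟩ := Matrix.exists_vecMul_eq_zero_iff.2 h0
  rw [pj_vecMul] at hv0
  apply hv
  ext r
  exact affineIndependent_iff.1 h2 Finset.univ v hv0.1 hv0.2 r (Finset.mem_univ r)

theorem pi_fin (d : ℕ) (p : ℕ → Fin d → ℝ) (l : List ℕ)
    (h : dt (d + 1) (hom d p) l ≠ 0) :
    AffineIndependent ℝ (fun r : Fin (d + 1) => p (l.getD r 0)) := by
  classical
  rw [affineIndependent_iff]
  intro s w h1 h2 e he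
  by_contra hne
  apply h
  rw [dt, ← Matrix.exists_vecMul_eq_zero_iff]
  refine ⟨fun r => if r ∈ s then w r else 0, ?_, ?_⟩
  · intro h0
    have := congrFun h0 e
    simp only [he, if_true, Pi.zero_apply] at this
    exact hne this
  · rw [pj_vecMul]
    constructor
    · have h5 := Finset.sum_ite_mem Finset.univ s w
      rw [Finset.univ_inter] at h5
      exact h5.trans h1
    · have h5 := Finset.sum_ite_mem Finset.univ s (fun r => w r • p (l.getD r 0))
      rw [Finset.univ_inter] at h5
      rw [← h2, ← h5]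
      refine Finset.sum_congr rfl fun r _ => ?_
      by_cases hr : r ∈ s
      · rw [if_pos hr, if_pos hr]
      · rw [if_neg hr, if_neg hr, zero_smul]

theorem st_PI : ST_PI := by
  classical
  intro d n p hdn hU B hB hBn
  obtain ⟨B', h1, h2, h3⟩ := Finset.exists_subsuperset_card_eq (s := B) (t := range n)
    (n := d + 1) (fun i hi => Finset.mem_range.2 (hBn i hi)) hB (by simp; omega)
  have hlen : B'.toList.length = d + 1 := by rw [Finset.length_toList, h3]
  have hai := pi_fin d p B'.toList (hU B'.toList hlen B'.nodup_toList (fun i hi => by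
    have := h2 (Finset.mem_toList.1 hi)
    exact Finset.mem_range.1 this))
  have hidx : ∀ i : B, B'.toList.idxOf (i : ℕ) < d + 1 := by
    intro i
    rw [← hlen]
    exact List.idxOf_lt_length_of_mem (Finset.mem_toList.2 (h1 i.2))
  have hg : ∀ i : B, B'.toList.getD (B'.toList.idxOf (i : ℕ)) 0 = i := by
    intro i
    rw [List.getD_eq_getElem _ _ (by rw [hlen]; exact hidx i)]
    exact List.getElem_idxOf _
  let e : B ↪ Fin (d + 1) := ⟨fun i => ⟨B'.toList.idxOf (i : ℕ), hidx i⟩, by
    intro i j hij
    have h5 : B'.toList.idxOf (i : ℕ) = B'.toList.idxOf (j : ℕ) := congrArg Fin.val hij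
    apply Subtype.ext
    rw [← hg i, ← hg j, h5]⟩
  have := hai.comp_embedding e
  convert this using 1
  ext i : 1
  show p i = p (B'.toList.getD (B'.toList.idxOf (i : ℕ)) 0)
  rw [hg i]

theorem st_PA (h1 : ST_PI) : ST_PA := by
  classical
  intro d n p hd hdn hU
  constructor
  · intro i j hi hj hij
    have h2 := h1 d n p hdn hU {i, j} (by
      have := Finset.card_le_two (a := i) (b := j)
      omega) (by
      intro k hk
      simp only [Finset.mem_insert, Finset.mem_singleton] at hk
      rcases hk with rfl | rfl <;> assumption)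
    have h3 := h2.injective (a₁ := ⟨i, by simp⟩) (a₂ := ⟨j, by simp⟩) hij
    exact congrArg Subtype.val h3
  · have h2 := h1 d n p hdn hU (range (d + 1)) (by simp) (fun i hi => by
      have := Finset.mem_range.1 hi; omega)
    have h3 := h2.affineSpan_eq_top_iff_card_eq_finrank_add_one.2 (by simp)
    rw [eq_top_iff, ← h3]
    apply affineSpan_mono
    rintro y ⟨i, rfl⟩
    have := Finset.mem_range.1 i.2
    exact ⟨i, by simp only [Set.mem_ofPred_eq]; omega, rfl⟩

theorem p3_rep (d : ℕ) (X : ℕ → ℕ → ℝ) (f : List ℕ) (i : ℕ) (hf : f.length = d) (hi : i ∈ f) :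
    dt (d + 1) X (f ++ [i]) = 0 := by
  obtain ⟨r, hr, hri⟩ := List.getElem_of_mem hi
  unfold dt
  refine Matrix.det_zero_of_row_eq (i := ⟨r, by omega⟩) (j := Fin.last d) ?_ ?_
  · intro h
    have := congrArg Fin.val h
    simp at this
    omega
  · ext j
    simp only [Matrix.of_apply, Fin.val_last]
    rw [pf_getD_lt f i r hr, List.getD_eq_getElem _ _ hr, hri]
    rw [pf_getD_last' f d i hf]

/-- a supporting hyperplane of a one-sided list -/
theorem p3_sup (h1 : ST_PF) (d n : ℕ) (p : ℕ → Fin d → ℝ) (f : List ℕ)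
    (hU : Unif d n p) (hnd : f.Nodup) (hf : f.length = d) (hfn : ∀ i ∈ f, i < n)
    (hos : OS (d + 1) (hom d p) n f) :
    ∃ (L : (Fin d → ℝ) →ₗ[ℝ] ℝ) (c : ℝ), (∀ i ∈ f, L (p i) = c) ∧
      ∀ i, i < n → i ∉ f → L (p i) < c := by
  obtain ⟨L, c, hL⟩ := h1 d p f hf
  have ha : ∀ i ∈ f, L (p i) = c := by
    intro i hi
    have := hL i
    rw [p3_rep d _ f i hf hi] at this
    linarith
  by_cases hex : ∃ x, x < n ∧ x ∉ f ∧ c < L (p x)
  · obtain ⟨x, hx, hxf, hxc⟩ := hex
    refine ⟨-L, -c, fun i hi => by simp [ha i hi], fun i hi hif => ?_⟩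
    have := hos x i hx hi hxf hif
    rw [hL, hL] at this
    have h3 : 0 < L (p x) - c := by linarith
    have h4 : 0 < L (p i) - c := by
      by_contra hcon
      push Not at hcon
      have := mul_nonpos_of_nonneg_of_nonpos h3.le hcon
      linarith
    simp only [LinearMap.neg_apply]
    linarith
  · push Not at hex
    refine ⟨L, c, ha, fun i hi hif => ?_⟩
    refine lt_of_le_of_ne (hex i hi hif) fun he => ?_
    apply hU (f ++ [i]) (by simp [hf]) _ _
    · rw [hL, he]; ring
    · rw [List.nodup_append]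
      refine ⟨hnd, by simp, ?_⟩
      intro a ha b hb
      simp only [List.mem_singleton] at hb
      subst hb
      intro h
      subst h
      exact hif ha
    · intro j hj
      simp only [List.mem_append, List.mem_singleton] at hj
      rcases hj with hj | rfl
      · exact hfn j hj
      · exact hi

theorem st_P3 (h1 : ST_PF) (h2 : ST_PC) (h3 : ST_PI) : ST_P3 := by
  classical
  intro d n p f i hd hdn hU hnd hf hfn hos hif
  obtain ⟨L, c, hLf, hLn⟩ := p3_sup h1 d n p f hU hnd hf hfn hos
  have hle : ∀ j, j < n → L (p j) ≤ c := by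
    intro j hj
    by_cases hjf : j ∈ f
    · exact (hLf j hjf).le
    · exact (hLn j hj hjf).le
  have hface := h2 d n p L c hle
  have hset : p '' {i | i < n ∧ L (p i) = c} = ((f.toFinset.image p : Finset _) : Set (Fin d → ℝ)) := by
    ext y
    simp only [Set.mem_image, Set.mem_ofPred_eq, Finset.coe_image, List.coe_toFinset]
    constructor
    · rintro ⟨j, ⟨hj1, hj2⟩, rfl⟩
      refine ⟨j, ?_, rfl⟩
      by_contra hjf
      exact absurd hj2 (hLn j hj1 hjf).ne
    · rintro ⟨j, hj, rfl⟩
      exact ⟨j, ⟨hfn j hj, hLf j hj⟩, rfl⟩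
  rw [hset] at hface
  have hhulle : ∀ x ∈ hul d n p, L x ≤ c := by
    intro x hx
    have hc : Convex ℝ {x : Fin d → ℝ | L x ≤ c} := convex_halfSpace_le L.isLinear c
    refine convexHull_min ?_ hc hx
    rintro y ⟨j, hj, rfl⟩
    exact hle j hj
  have hcard : f.toFinset.card = d := by
    rw [List.toFinset_card_of_nodup hnd, hf]
  have hai := h3 d n p hdn hU f.toFinset (by omega) (fun j hj => hfn j (List.mem_toFinset.1 hj))
  have hai2 := hai.range
  have hmemI : ∀ y ∈ f.toFinset.image p, y ∈ Set.range (fun i : f.toFinset => p i) := by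
    intro y hy
    obtain ⟨j, hj, rfl⟩ := Finset.mem_image.1 hy
    exact ⟨⟨j, hj⟩, rfl⟩
  have hpi : p i ∈ f.toFinset.image p :=
    Finset.mem_image.2 ⟨i, List.mem_toFinset.2 hif, rfl⟩
  rw [mem_extremePoints_iff_left]
  refine ⟨subset_convexHull ℝ _ ⟨i, hfn i hif, rfl⟩, ?_⟩
  intro a ha b hb hab
  obtain ⟨s, t, hs, ht, hst, hsum⟩ := hab
  have hLa := hhulle a ha
  have hLb := hhulle b hb
  have hLi := hLf i hif
  rw [← hsum, map_add, map_smul, map_smul, smul_eq_mul, smul_eq_mul] at hLi
  have hLa' : L a = c := by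
    by_contra hne
    have h7 : L a < c := lt_of_le_of_ne hLa hne
    have h8 := mul_lt_mul_of_pos_left h7 hs
    have h9 := mul_le_mul_of_nonneg_left hLb ht.le
    have h10 : s * c + t * c = c := by rw [← add_mul, hst, one_mul]
    linarith
  have hLb' : L b = c := by
    by_contra hne
    have h7 : L b < c := lt_of_le_of_ne hLb hne
    have h8 := mul_lt_mul_of_pos_left h7 ht
    have h9 := mul_le_mul_of_nonneg_left hLa hs.le
    have h10 : s * c + t * c = c := by rw [← add_mul, hst, one_mul]
    linarith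
  have ha' : a ∈ convexHull ℝ ((f.toFinset.image p : Finset _) : Set (Fin d → ℝ)) := by
    rw [← hface]; exact ⟨ha, hLa'⟩
  have hb' : b ∈ convexHull ℝ ((f.toFinset.image p : Finset _) : Set (Fin d → ℝ)) := by
    rw [← hface]; exact ⟨hb, hLb'⟩
  rw [Finset.mem_convexHull'] at ha' hb'
  obtain ⟨u, hu0, hu1, hua⟩ := ha'
  obtain ⟨v, hv0, hv1, hvb⟩ := hb'
  set S := f.toFinset.image p with hS
  -- the combination
  have key : ∀ y ∈ S, s * u y + t * v y - (if y = p i then 1 else 0) = 0 := by
    have hz := affineIndependent_iff.1 hai2 (S.attach.map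
      ⟨fun y => (⟨y.1, hmemI y.1 y.2⟩ : Set.range (fun i : f.toFinset => p i)), by
        intro y z hyz
        exact Subtype.ext (Subtype.mk.injEq _ _ _ _ ▸ hyz : y.1 = z.1)⟩)
      (fun y => s * u y.1 + t * v y.1 - (if y.1 = p i then 1 else 0)) ?_ ?_
    · intro y hy
      have := hz ⟨y, hmemI y hy⟩ (by
        rw [Finset.mem_map]
        exact ⟨⟨y, hy⟩, Finset.mem_attach _ _, rfl⟩)
      exact this
    · rw [Finset.sum_map]
      simp only [Function.Embedding.coeFn_mk]
      rw [Finset.sum_attach S (fun y => s * u y + t * v y - (if y = p i then (1:ℝ) else 0))]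
      rw [Finset.sum_sub_distrib, Finset.sum_add_distrib, ← Finset.mul_sum, ← Finset.mul_sum,
        hu1, hv1, Finset.sum_ite_eq' S (p i) (fun _ => (1:ℝ)), if_pos hpi]
      linarith
    · rw [Finset.sum_map]
      simp only [Function.Embedding.coeFn_mk]
      rw [Finset.sum_attach S (fun y => (s * u y + t * v y - (if y = p i then (1:ℝ) else 0)) • y)]
      have e1 : ∀ y ∈ S, (s * u y + t * v y - (if y = p i then (1:ℝ) else 0)) • y =
          s • (u y • y) + t • (v y • y) - (if y = p i then y else 0) := by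
        intro y _
        rw [sub_smul, add_smul, mul_smul, mul_smul]
        congr 1
        by_cases h : y = p i
        · simp [h]
        · simp [h]
      rw [Finset.sum_congr rfl e1, Finset.sum_sub_distrib, Finset.sum_add_distrib,
        ← Finset.smul_sum, ← Finset.smul_sum, hua, hvb, hsum,
        Finset.sum_ite_eq' S (p i) (fun y => y), if_pos hpi, sub_self]
  have hui : u (p i) ≤ 1 := by
    rw [← hu1]
    exact Finset.single_le_sum (f := u) (fun y hy => hu0 y hy) hpi
  have hvi : v (p i) ≤ 1 := by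
    rw [← hv1]
    exact Finset.single_le_sum (f := v) (fun y hy => hv0 y hy) hpi
  have hk := key (p i) hpi
  rw [if_pos rfl] at hk
  have hui1 : u (p i) = 1 := by
    by_contra hne
    have h5 : u (p i) < 1 := lt_of_le_of_ne hui hne
    nlinarith
  have hrest : ∀ y ∈ S, y ≠ p i → u y = 0 := by
    intro y hy hne
    have h6 := key y hy
    rw [if_neg hne] at h6
    have h7 := hu0 y hy
    have h8 := hv0 y hy
    by_contra hcon
    have h9 : 0 < u y := lt_of_le_of_ne h7 (Ne.symm hcon)
    nlinarith [mul_pos hs h9, mul_nonneg ht.le h8]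
  rw [← hua, Finset.sum_eq_single (p i)]
  · rw [hui1, one_smul]
  · intro y hy hne
    rw [hrest y hy hne, zero_smul]
  · intro h; exact absurd hpi h

end Pool.Agent.Helper54.SP
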